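import Pool.Agent.W_MP_960bf8_lc.Defs

/-!
Basic facts about clubs in a regular uncountable cardinal.
-/

namespace Pool.Agent.W_MP_960bf8_lc

open Set Cardinal

universe u v

variable {κ : Cardinal.{u}}

theorem LimPt.mono {X Y : Set Ordinal.{u}} {β : Ordinal.{u}} (h : LimPt X β) (hXY : X ⊆ Y) :
    LimPt Y β :=
  ⟨h.1, fun γ hγ => let ⟨δ, h1, h2⟩ := h.2 γ hγ; ⟨δ, hXY h1, h2⟩⟩

theorem LimPt.infinite {X : Set Ordinal.{u}} {β : Ordinal.{u}} (h : LimPt X β) {γ : Ordinal.{u}}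
    (hγ : γ < β) : (X ∩ Ioo γ β).Infinite := by
  intro hf
  obtain ⟨δ, h1, h2, h3⟩ := h.2 γ hγ
  have hne : (X ∩ Ioo γ β).Nonempty := ⟨δ, h1, h2, h3⟩
  obtain ⟨m, hm, hmax⟩ := hf.exists_maximal hne
  obtain ⟨δ', h1', h2', h3'⟩ := h.2 m hm.2.2
  have hmem : δ' ∈ X ∩ Ioo γ β := ⟨h1', hm.2.1.trans h2', h3'⟩
  have := hmax hmem h2'.le
  exact absurd this (not_le.2 h2')

theorem limPt_inter_Iio {X : Set Ordinal.{u}} {α β : Ordinal.{u}} (h : β ≤ α) :
    LimPt (X ∩ Iio α) β ↔ LimPt X β := by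
  refine ⟨fun h' => h'.mono inter_subset_left, fun h' => ⟨h'.1, fun γ hγ => ?_⟩⟩
  obtain ⟨δ, h1, h2, h3⟩ := h'.2 γ hγ
  exact ⟨δ, ⟨h1, h3.trans_le h⟩, h2, h3⟩

theorem sSup_mem_of_closed {α b : Ordinal.{u}} {X : Set Ordinal.{u}}
    (hX : ∀ β < α, LimPt X β → β ∈ X) (hb : b < α) (hne : (X ∩ Iic b).Nonempty) :
    sSup (X ∩ Iic b) ∈ X ∧ sSup (X ∩ Iic b) ≤ b := by
  have hbdd : BddAbove (X ∩ Iic b) := ⟨b, fun x hx => hx.2⟩
  have hle : sSup (X ∩ Iic b) ≤ b := csSup_le hne fun x hx => hx.2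
  refine ⟨?_, hle⟩
  by_contra hnot
  apply hnot
  apply hX _ (hle.trans_lt hb)
  have hlt : ∀ x ∈ X ∩ Iic b, x < sSup (X ∩ Iic b) := by
    intro x hx
    refine lt_of_le_of_ne (le_csSup hbdd hx) ?_
    rintro heq
    exact hnot (heq ▸ hx.1)
  obtain ⟨x, hx⟩ := hne
  refine ⟨zero_le.trans_lt (hlt x hx), fun γ hγ => ?_⟩
  obtain ⟨y, hy, hγy⟩ := exists_lt_of_lt_csSup ⟨x, hx⟩ hγ
  exact ⟨y, hy.1, hγy, hlt y hy⟩

section Regular

variable (hκ : κ.IsRegular) (hκ0 : ℵ₀ < κ)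

include hκ

theorem sup_lt {ι : Type v} (hι : Cardinal.lift.{u} #ι < Cardinal.lift.{v} κ)
    (f : ι → Ordinal.{u}) (hf : ∀ i, f i < κ.ord) : ⨆ i, f i < κ.ord := by
  refine Ordinal.lift_iSup_lt_of_lt_cof ?_ hf
  rwa [← Ordinal.lift_cof, hκ.cof_ord]

theorem sup_Iio_lt {ν : Ordinal.{u}} (hν : ν < κ.ord) (f : Ordinal.{u} → Ordinal.{u})
    (hf : ∀ δ < ν, f δ < κ.ord) : ⨆ δ : Iio ν, f δ < κ.ord := by
  refine sup_lt hκ ?_ _ fun i => hf i i.2
  have h1 : ν.card < κ := Cardinal.lt_ord.1 hν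
  have h2 : #(Iio ν) = Cardinal.lift.{u + 1} ν.card := Cardinal.mk_Iio_ordinal ν
  have h3 : #(Iio ν) < Cardinal.lift.{u + 1} κ := by
    rw [h2]
    exact Cardinal.lift_lt.2 h1
  rw [Cardinal.lift_id'.{u, u + 1}]
  exact h3

omit hκ in
theorem le_sup_Iio {ν : Ordinal.{u}} (f : Ordinal.{u} → Ordinal.{u}) {δ : Ordinal.{u}}
    (hδ : δ < ν) : f δ ≤ ⨆ δ : Iio ν, f δ :=
  Ordinal.le_iSup (fun δ : Iio ν => f δ) ⟨δ, hδ⟩

include hκ0

theorem seq_sup_lt (g : ℕ → Ordinal.{u}) (hg : ∀ n, g n < κ.ord) : ⨆ n, g n < κ.ord := by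
  refine sup_lt hκ ?_ g hg
  simpa using hκ0

/-- Intersections of fewer than `κ` clubs are clubs. -/
theorem club_iInter {ι : Type u} [Nonempty ι] (hι : #ι < κ) (E : ι → Set Ordinal.{u})
    (hE : ∀ i, ClubIn κ.ord (E i)) : ClubIn κ.ord (⋂ i, E i) := by
  refine ⟨?_, ?_, ?_⟩
  · intro x hx
    exact (hE (Classical.arbitrary ι)).1 (mem_iInter.1 hx _)
  · intro γ hγ
    have hN : ∀ i : ι, ∀ δ : Ordinal.{u}, ∃ δ' : Ordinal.{u}, δ < κ.ord → δ' ∈ E i ∧ δ < δ' := by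
      intro i δ
      by_cases h : δ < κ.ord
      · obtain ⟨δ', h1, h2⟩ := (hE i).2.1 δ h
        exact ⟨δ', fun _ => ⟨h1, h2⟩⟩
      · exact ⟨0, fun h' => absurd h' h⟩
    choose N hN using hN
    let g : ℕ → Ordinal.{u} := fun n => Nat.rec γ (fun _ ih => ⨆ i, N i ih) n
    have hg : ∀ n, g n < κ.ord := by
      intro n
      induction n with
      | zero => exact hγ
      | succ n ih =>
        change ⨆ i, N i (g n) < κ.ord
        refine sup_lt hκ (by simpa using hι) _ fun i => ?_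
        exact (hE i).1 (hN i _ ih).1
    have hstep : ∀ n i, N i (g n) ≤ g (n + 1) := by
      intro n i
      exact Ordinal.le_iSup (fun i => N i (g n)) i
    have hα := seq_sup_lt hκ hκ0 g hg
    have hlt : ∀ n, g n < ⨆ n, g n := by
      intro n
      have h1 := (hN (Classical.arbitrary ι) _ (hg n)).2
      exact (h1.trans_le (hstep n _)).trans_le (Ordinal.le_iSup g (n + 1))
    refine ⟨⨆ n, g n, ?_, hlt 0⟩
    rw [mem_iInter]
    intro i
    refine (hE i).2.2 _ hα ⟨zero_le.trans_lt (hlt 0), fun γ' hγ' => ?_⟩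
    obtain ⟨n, hn⟩ := (Ordinal.lt_iSup_iff).1 hγ'
    refine ⟨N i (g n), (hN i _ (hg n)).1, hn.trans (hN i _ (hg n)).2, ?_⟩
    exact (hstep n i).trans_lt (hlt (n + 1))
  · intro β hβ h
    rw [mem_iInter]
    intro i
    exact (hE i).2.2 β hβ (h.mono (iInter_subset _ i))

theorem club_inter {E F : Set Ordinal.{u}} (hE : ClubIn κ.ord E) (hF : ClubIn κ.ord F) :
    ClubIn κ.ord (E ∩ F) := by
  have h := club_iInter hκ hκ0 (ι := ULift.{u} Bool)
    (by simpa using (Cardinal.natCast_lt_aleph0 (n := 2)).trans hκ0)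
    (fun b => if b.down then E else F) (by
      rintro ⟨b⟩
      cases b
      · simpa using hF
      · simpa using hE)
  have heq : (⋂ b : ULift.{u} Bool, if b.down then E else F) = E ∩ F := by
    ext x
    simp only [mem_iInter, ULift.forall, Bool.forall_bool]
    simp [and_comm]
  rwa [heq] at h

/-- The closure points of a function form a club. -/
theorem club_closure (f : Ordinal.{u} → Ordinal.{u}) (hf : ∀ δ < κ.ord, f δ < κ.ord) :
    ClubIn κ.ord {ν | ν < κ.ord ∧ 0 < ν ∧ ∀ δ < ν, f δ < ν} := by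
  refine ⟨fun x hx => hx.1, ?_, ?_⟩
  · intro γ hγ
    have hlim : Order.IsSuccLimit κ.ord := Cardinal.isSuccLimit_ord hκ0.le
    let g : ℕ → Ordinal.{u} := fun n =>
      Nat.rec (Order.succ γ) (fun _ ih => max (Order.succ ih) (⨆ δ : Iio ih, Order.succ (f δ))) n
    have hg : ∀ n, g n < κ.ord := by
      intro n
      induction n with
      | zero => exact hlim.succ_lt hγ
      | succ n ih =>
        change max (Order.succ (g n)) (⨆ δ : Iio (g n), Order.succ (f δ)) < κ.ord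
        refine max_lt (hlim.succ_lt ih) ?_
        refine sup_Iio_lt hκ ih (fun δ => Order.succ (f δ)) fun δ hδ => ?_
        exact hlim.succ_lt (hf δ (hδ.trans ih))
    have hs1 : ∀ n, g n < g (n + 1) := fun n =>
      (Order.lt_succ (g n)).trans_le (le_max_left _ _)
    have hs2 : ∀ n, ∀ δ < g n, f δ < g (n + 1) := by
      intro n δ hδ
      refine (Order.lt_succ (f δ)).trans_le ?_
      refine (le_sup_Iio (fun δ => Order.succ (f δ)) hδ).trans (le_max_right _ _)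
    have hlt : ∀ n, g n < ⨆ n, g n := fun n => (hs1 n).trans_le (Ordinal.le_iSup g (n + 1))
    refine ⟨⨆ n, g n, ⟨seq_sup_lt hκ hκ0 g hg, zero_le.trans_lt (hlt 0), ?_⟩,
      (Order.lt_succ γ).trans (hlt 0)⟩
    intro δ hδ
    obtain ⟨n, hn⟩ := (Ordinal.lt_iSup_iff).1 hδ
    exact (hs2 n δ hn).trans (hlt (n + 1))
  · intro β hβ h
    refine ⟨hβ, h.1, fun δ hδ => ?_⟩
    obtain ⟨ν, hν, h1, h2⟩ := h.2 δ hδ
    exact (hν.2.2 δ h1).trans h2

/-- A club of limit points of an unbounded set. -/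
theorem club_limPt (B : Set Ordinal.{u}) (hB : B ⊆ Iio κ.ord)
    (hB' : ∀ γ < κ.ord, ∃ δ ∈ B, γ < δ) :
    ∃ E, ClubIn κ.ord E ∧ ∀ ν ∈ E, LimPt B ν := by
  have hN : ∀ δ : Ordinal.{u}, ∃ δ' : Ordinal.{u}, δ < κ.ord → δ' ∈ B ∧ δ < δ' := by
    intro δ
    by_cases h : δ < κ.ord
    · obtain ⟨δ', h1, h2⟩ := hB' δ h
      exact ⟨δ', fun _ => ⟨h1, h2⟩⟩
    · exact ⟨0, fun h' => absurd h' h⟩
  choose N hN using hN
  refine ⟨_, club_closure hκ hκ0 N fun δ hδ => hB (hN δ hδ).1, ?_⟩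
  rintro ν ⟨h1, h2, h3⟩
  exact ⟨h2, fun γ hγ => ⟨N γ, (hN γ (hγ.trans h1)).1, (hN γ (hγ.trans h1)).2, h3 γ hγ⟩⟩

omit hκ0 in
/-- Clubs contain points of any regular cofinality below `κ`. -/
theorem exists_cof {E : Set Ordinal.{u}} (hE : ClubIn κ.ord E) {θ : Cardinal.{u}}
    (hθ : θ.IsRegular) (hθκ : θ < κ) : ∃ α ∈ E, α.cof = θ := by
  have hN : ∀ δ : Ordinal.{u}, ∃ δ' : Ordinal.{u}, δ < κ.ord → δ' ∈ E ∧ δ < δ' := by
    intro δ
    by_cases h : δ < κ.ord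
    · obtain ⟨δ', h1, h2⟩ := hE.2.1 δ h
      exact ⟨δ', fun _ => ⟨h1, h2⟩⟩
    · exact ⟨0, fun h' => absurd h' h⟩
  choose N hN using hN
  let F : (i : θ.ord.ToType) → ((j : θ.ord.ToType) → j < i → Ordinal.{u}) → Ordinal.{u} :=
    fun i ih => N (⨆ j : Iio i, ih j.1 j.2)
  let f : θ.ord.ToType → Ordinal.{u} := (wellFounded_lt).fix F
  have hf : ∀ i, f i = N (⨆ j : Iio i, f j) := fun i => WellFounded.fix_eq _ _ _
  have hlt : ∀ i, f i < κ.ord ∧ (⨆ j : Iio i, f j) < κ.ord := by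
    intro i
    induction i using (wellFounded_lt (α := θ.ord.ToType)).induction with
    | _ i ih =>
      have h1 : (⨆ j : Iio i, f j) < κ.ord := by
        refine sup_lt hκ ?_ _ fun j => (ih j.1 j.2).1
        have h2 : #(Iio i) < #θ.ord.ToType := Cardinal.mk_Iio_lt i (by simp)
        rw [Cardinal.mk_toType, Cardinal.card_ord] at h2
        simpa using h2.trans hθκ
      refine ⟨?_, h1⟩
      rw [hf i]
      exact hE.1 (hN _ h1).1
  have hmono : StrictMono f := by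
    intro j i hji
    rw [hf i]
    refine lt_of_le_of_lt ?_ (hN _ (hlt i).2).2
    exact Ordinal.le_iSup (fun j : Iio i => f j) ⟨j, hji⟩
  have hmem : ∀ i, f i ∈ E := by
    intro i
    rw [hf i]
    exact (hN _ (hlt i).2).1
  have hlim : Order.IsSuccLimit θ.ord := Cardinal.isSuccLimit_ord hθ.aleph0_le
  have hnomax : NoMaxOrder θ.ord.ToType := Cardinal.noMaxOrder hθ.aleph0_le
  have hne : Nonempty θ.ord.ToType := Ordinal.nonempty_toType_iff.2 hθ.ord_pos.ne'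
  have hα : ⨆ i, f i < κ.ord := by
    refine sup_lt hκ ?_ _ fun i => (hlt i).1
    simpa using hθκ
  have hfl : ∀ i, f i < ⨆ i, f i := by
    intro i
    obtain ⟨j, hj⟩ := exists_gt i
    exact (hmono hj).trans_le (Ordinal.le_iSup f j)
  refine ⟨⨆ i, f i, ?_, ?_⟩
  · refine hE.2.2 _ hα ⟨zero_le.trans_lt (hfl (Classical.arbitrary _)), fun γ hγ => ?_⟩
    obtain ⟨i, hi⟩ := (Ordinal.lt_iSup_iff).1 hγ
    exact ⟨f i, hmem i, hi, hfl i⟩
  · rw [Ordinal.cof_iSup hmono, Ordinal.cof_toType, hθ.cof_ord]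

end Regular

end Pool.Agent.W_MP_960bf8_lc
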