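import Mathlib

/-!
Square, diamond and proxy principles at a cardinal `κ`, in terms of sets of ordinals below
`κ.ord`.
-/

namespace Pool.Agent.W_MP_960bf8_lc

open Set Cardinal

universe u

/-- `β` is a limit point of the set `X` of ordinals: `0 < β` and `β = sup (X ∩ β)`. -/
def LimPt (X : Set Ordinal.{u}) (β : Ordinal.{u}) : Prop :=
  0 < β ∧ ∀ γ < β, ∃ δ ∈ X, γ < δ ∧ δ < β

/-- `C` is a club subset of `α`: it consists of ordinals below `α`, is unbounded in `α`, and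
contains all its limit points below `α`. -/
def ClubIn (α : Ordinal.{u}) (C : Set Ordinal.{u}) : Prop :=
  C ⊆ Iio α ∧ (∀ γ < α, ∃ δ ∈ C, γ < δ) ∧ ∀ β < α, LimPt C β → β ∈ C

/-- The principle `□(κ)`. -/
def Square (κ : Cardinal.{u}) : Prop :=
  ∃ C : Ordinal.{u} → Set Ordinal.{u},
    (∀ α < κ.ord, Order.IsSuccLimit α →
      ClubIn α (C α) ∧ ∀ β < α, LimPt (C α) β → C β = C α ∩ Iio β) ∧
    ¬ ∃ D : Set Ordinal.{u}, ClubIn κ.ord D ∧ ∀ α < κ.ord, LimPt D α → D ∩ Iio α = C α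

/-- Jensen's diamond principle at `κ`. -/
def Diamond (κ : Cardinal.{u}) : Prop :=
  ∃ A : Ordinal.{u} → Set Ordinal.{u}, ∀ X : Set Ordinal.{u}, X ⊆ Iio κ.ord →
    ∀ E : Set Ordinal.{u}, ClubIn κ.ord E → ∃ α ∈ E, X ∩ Iio α = A α

/-- The next `n` elements of `C` above `γ` all lie in `B`. -/
def NextIn (C B : Set Ordinal.{u}) (n : ℕ) (γ : Ordinal.{u}) : Prop :=
  ∀ δ ∈ C, γ < δ → (C ∩ Ioc γ δ).encard ≤ n → δ ∈ B

/-- The principle `P⁻(κ, μ, ⊑, 1, {κ}, μ)`. -/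
def Proxy (κ μ : Cardinal.{u}) : Prop :=
  ∃ 𝒞 : Ordinal.{u} → Set (Set Ordinal.{u}),
    (∀ α < κ.ord, Order.IsSuccLimit α →
      (𝒞 α).Nonempty ∧ #(𝒞 α) < Cardinal.lift.{u + 1} μ ∧
      ∀ C ∈ 𝒞 α, ClubIn α C ∧ ∀ β < α, LimPt C β → ∃ D ∈ 𝒞 β, D = C ∩ Iio β) ∧
    ∀ B : Set Ordinal.{u}, B ⊆ Iio κ.ord → (∀ γ < κ.ord, ∃ δ ∈ B, γ < δ) → ∀ n : ℕ,
      ∀ E : Set Ordinal.{u}, ClubIn κ.ord E →
        ∃ α ∈ E, Order.IsSuccLimit α ∧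
          ∀ C ∈ 𝒞 α, ∀ ξ < α, ∃ γ ∈ C, ξ < γ ∧ NextIn C B n γ

end Pool.Agent.W_MP_960bf8_lc
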