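import Pool.Agent.W_MP_960bf8_lc.Key

/-!
A simultaneous elimination argument for gap functions, and a pigeonhole lemma.
-/

namespace Pool.Agent.W_MP_960bf8_lc

open Set Cardinal

universe u v

/-- Requirements on a finite set filling the gap `(b, b')`. -/
def Fits (b b' : Ordinal.{u}) (V : Set Ordinal.{u}) (Z : Ordinal.{u} → Set Ordinal.{u})
    (N : Ordinal.{u} → ℕ) (F : Set Ordinal.{u}) : Prop :=
  F.Finite ∧ F.Nonempty ∧ F ⊆ Ioo b b' ∧ (∀ p ∈ F, ∃ η ∈ V, p ∈ Z η) ∧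
    ∀ η ∈ V, N η ≤ F.ncard

open Classical in
/-- A finite set filling the gap `(b, b')`. -/
noncomputable def fill (b b' : Ordinal.{u}) (V : Set Ordinal.{u})
    (Z : Ordinal.{u} → Set Ordinal.{u}) (N : Ordinal.{u} → ℕ) : Set Ordinal.{u} :=
  if h : ∃ F, Fits b b' V Z N F then h.choose else {b'}

theorem fits_fill {b b' : Ordinal.{u}} {V : Set Ordinal.{u}} {Z : Ordinal.{u} → Set Ordinal.{u}}
    {N : Ordinal.{u} → ℕ} (h : ∃ F, Fits b b' V Z N F) : Fits b b' V Z N (fill b b' V Z N) := by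
  unfold fill
  rw [dif_pos h]
  exact h.choose_spec

theorem gap_fill (V : Ordinal.{u} → Ordinal.{u} → Set Ordinal.{u})
    (Z : Ordinal.{u} → Set Ordinal.{u}) (N : Ordinal.{u} → ℕ) :
    Gap fun b b' => fill b b' (V b b') Z N := by
  intro b b'
  change (fill b b' (V b b') Z N).Finite ∧ (fill b b' (V b b') Z N).Nonempty ∧
    (∀ p ∈ fill b b' (V b b') Z N, p ≤ b') ∧ (b < b' → ∀ p ∈ fill b b' (V b b') Z N, b < p)
  by_cases h : ∃ F, Fits b b' (V b b') Z N F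
  · obtain ⟨h1, h2, h3, -, -⟩ := fits_fill h
    exact ⟨h1, h2, fun p hp => (h3 hp).2.le, fun _ p hp => (h3 hp).1⟩
  · have : fill b b' (V b b') Z N = {b'} := by
      unfold fill
      rw [dif_neg h]
    rw [this]
    refine ⟨finite_singleton _, singleton_nonempty _, ?_, ?_⟩
    · rintro p rfl
      exact le_rfl
    · rintro hb p rfl
      exact hb

/-- The type of gap functions. -/
abbrev Gp : Type (u + 1) := {g : Ordinal.{u} → Ordinal.{u} → Set Ordinal.{u} // Gap g}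

/-- The gap function `g` does not serve the pair `(B, n)` in the gap `(b, b')`. -/
def Bad (g : Ordinal.{u} → Ordinal.{u} → Set Ordinal.{u}) (B : Set Ordinal.{u}) (n : ℕ)
    (b b' : Ordinal.{u}) : Prop :=
  ¬ (g b b' ⊆ B ∧ n ≤ (g b b').ncard)

/-- The elimination lemma. -/
theorem exists_elim {J : Type v} [LinearOrder J] [WellFoundedLT J]
    (Bd : Gp.{u} → Set Ordinal.{u}) (nd : Gp.{u} → ℕ) (Z : Ordinal.{u} → J → Set Ordinal.{u})
    (N : Ordinal.{u} → J → ℕ) (A : Ordinal.{u} → Set Ordinal.{u}) :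
    ∃ G : J → Gp.{u}, ∀ b b' η, η ∈ A b' → b < η → η < b' →
      (∀ τ, Z η τ = Bd (G τ) ∩ Iio η ∧ N η τ = nd (G τ) ∧ LimPt (Bd (G τ)) η) →
      ∃ h : J → Ordinal.{u}, (∀ τ, Bad (G τ).1 (Bd (G τ)) (nd (G τ)) b b' → h τ ∈ A b') ∧
        ∀ τ τ', Bad (G τ).1 (Bd (G τ)) (nd (G τ)) b b' →
          Bad (G τ').1 (Bd (G τ')) (nd (G τ')) b b' → h τ = h τ' → τ = τ' := by
  classical
  let F : (τ : J) → ((σ : J) → σ < τ → Gp.{u}) → Gp.{u} := fun τ ih =>
    ⟨fun b b' => fill b b' {η | η ∈ A b' ∧ b < η ∧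
      ∀ σ (hσ : σ < τ), Z η σ = Bd (ih σ hσ) ∩ Iio η ∧ N η σ = nd (ih σ hσ)}
      (fun η => Z η τ) (fun η => N η τ), gap_fill _ _ _⟩
  let G : J → Gp.{u} := (wellFounded_lt (α := J)).fix F
  let V : J → Ordinal.{u} → Ordinal.{u} → Set Ordinal.{u} := fun τ b b' =>
    {η | η ∈ A b' ∧ b < η ∧ ∀ σ < τ, Z η σ = Bd (G σ) ∩ Iio η ∧ N η σ = nd (G σ)}
  have hG : ∀ τ b b', (G τ).1 b b' = fill b b' (V τ b b') (fun η => Z η τ) (fun η => N η τ) := by
    intro τ b b'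
    have : G τ = F τ fun σ _ => G σ := WellFounded.fix_eq _ _ _
    rw [this]
  refine ⟨G, fun b b' η hηA hbη hηb hη => ?_⟩
  have hηV : ∀ τ, η ∈ V τ b b' := fun τ => ⟨hηA, hbη, fun σ _ => ⟨(hη σ).1, (hη σ).2.1⟩⟩
  -- a bad index eliminates a candidate
  have key : ∀ τ, Bad (G τ).1 (Bd (G τ)) (nd (G τ)) b b' →
      ∃ η' ∈ V τ b b', ¬ (Z η' τ = Bd (G τ) ∩ Iio η' ∧ N η' τ = nd (G τ)) := by
    intro τ hbad
    by_contra hcon
    push Not at hcon
    apply hbad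
    have hex : ∃ F, Fits b b' (V τ b b') (fun η => Z η τ) (fun η => N η τ) F := by
      have hinf := (hη τ).2.2.infinite hbη
      obtain ⟨F, hF, hFf, hFc⟩ := hinf.exists_subset_ncard_eq (nd (G τ) + 1)
      refine ⟨F, hFf, ?_, ?_, ?_, ?_⟩
      · rw [← Set.ncard_pos hFf]
        omega
      · intro p hp
        exact ⟨(hF hp).2.1, (hF hp).2.2.trans hηb⟩
      · intro p hp
        refine ⟨η, hηV τ, ?_⟩
        change p ∈ Z η τ
        rw [(hη τ).1]
        exact ⟨(hF hp).1, (hF hp).2.2⟩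
      · intro η' hη'
        change N η' τ ≤ F.ncard
        rw [(hcon η' hη').2]
        omega
    obtain ⟨-, -, -, h4, h5⟩ := fits_fill hex
    rw [hG τ b b']
    refine ⟨fun p hp => ?_, ?_⟩
    · obtain ⟨η', hη', hpη'⟩ := h4 p hp
      have h6 : p ∈ Z η' τ := hpη'
      rw [(hcon η' hη').1] at h6
      exact h6.1
    · have h6 : N η τ ≤ _ := h5 η (hηV τ)
      rwa [(hη τ).2.1] at h6
  have key' : ∀ τ, ∃ η' : Ordinal.{u}, Bad (G τ).1 (Bd (G τ)) (nd (G τ)) b b' →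
      η' ∈ V τ b b' ∧ ¬ (Z η' τ = Bd (G τ) ∩ Iio η' ∧ N η' τ = nd (G τ)) := by
    intro τ
    by_cases h : Bad (G τ).1 (Bd (G τ)) (nd (G τ)) b b'
    · obtain ⟨η', h1, h2⟩ := key τ h
      exact ⟨η', fun _ => ⟨h1, h2⟩⟩
    · exact ⟨0, fun h' => absurd h' h⟩
  choose h hh using key'
  have hne : ∀ τ τ', Bad (G τ).1 (Bd (G τ)) (nd (G τ)) b b' →
      Bad (G τ').1 (Bd (G τ')) (nd (G τ')) b b' → τ < τ' → h τ ≠ h τ' := by
    intro τ τ' h1 h2 hlt heq
    apply (hh τ h1).2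
    have := (hh τ' h2).1.2.2 τ hlt
    rwa [← heq] at this
  refine ⟨h, fun τ hτ => (hh τ hτ).1.1, fun τ τ' h1 h2 heq => ?_⟩
  rcases lt_trichotomy τ τ' with hlt | hlt | hlt
  · exact absurd heq (hne τ τ' h1 h2 hlt)
  · exact hlt
  · exact absurd heq.symm (hne τ' τ h2 h1 hlt)

/-- A cofinal family of the minimal size. -/
theorem exists_family (α : Ordinal.{u}) :
    ∃ (S : Type u) (f : S → Ordinal.{u}), #S = α.cof ∧ (∀ s, f s < α) ∧
      ∀ ξ < α, ∃ s, ξ ≤ f s := by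
  obtain ⟨S, hS, hc⟩ := Order.exists_cof_eq α.ToType
  rw [Ordinal.cof_toType] at hc
  refine ⟨S, fun s => ((Ordinal.ToType.mk.symm (s : α.ToType) : Iio α) : Ordinal.{u}), hc,
    fun s => (Ordinal.ToType.mk.symm (s : α.ToType)).2, fun ξ hξ => ?_⟩
  obtain ⟨s, hs, hle⟩ := hS (Ordinal.ToType.mk ⟨ξ, hξ⟩)
  refine ⟨⟨s, hs⟩, ?_⟩
  have := Ordinal.ToType.mk.symm.monotone hle
  rw [OrderIso.symm_apply_apply] at this
  exact this

/-- The pigeonhole lemma. -/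
theorem exists_unbounded {J : Type u} [LinearOrder J] [WellFoundedLT J]
    {α : Ordinal.{u}} (hα : α.cof ≠ Order.cof J) (D : J → Set Ordinal.{u})
    (hmono : Monotone D) (hD : ∀ ξ < α, ∃ j, ∃ b ∈ D j, ξ < b) :
    ∃ j, ∀ ξ < α, ∃ b ∈ D j, ξ < b := by
  rcases lt_or_gt_of_ne hα with hlt | hlt
  · -- `cof α < cof J`
    obtain ⟨S, f, hS, hf, hcof⟩ := exists_family α
    choose j hj using fun s => hD (f s) (hf s)
    have hnot : ¬ IsCofinal (range j) := by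
      intro h
      have h1 := Order.cof_le h
      have h2 : #(range j) ≤ #S := Cardinal.mk_range_le
      exact absurd (h1.trans h2) (not_le.2 (hS ▸ hlt))
    unfold IsCofinal at hnot
    push Not at hnot
    obtain ⟨x, hx⟩ := hnot
    refine ⟨x, fun ξ hξ => ?_⟩
    obtain ⟨s, hs⟩ := hcof ξ hξ
    obtain ⟨b, hb, hlt'⟩ := hj s
    exact ⟨b, hmono (hx _ ⟨s, rfl⟩).le hb, hs.trans_lt hlt'⟩
  · by_contra hcon
    push Not at hcon
    obtain ⟨K, hK, hKc⟩ := Order.exists_cof_eq J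
    choose s hs hs' using hcon
    have hsup : ⨆ k : K, s k < α := by
      refine Ordinal.iSup_lt_of_lt_cof ?_ fun k => hs k
      rw [hKc]
      exact hlt
    obtain ⟨j, b, hb, hlt'⟩ := hD _ hsup
    obtain ⟨k, hk, hjk⟩ := hK j
    have h1 := hs' k b (hmono hjk hb)
    have h2 : s k ≤ ⨆ k : K, s k := Ordinal.le_iSup (fun k : K => s k) ⟨k, hk⟩
    exact absurd hlt' (not_lt.2 (h1.trans h2))

end Pool.Agent.W_MP_960bf8_lc
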