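import Pool.Agent.W_MP_960bf8_lc.Club

/-!
Filling the gaps of the clubs of a coherent sequence with finite sets.
-/

namespace Pool.Agent.W_MP_960bf8_lc

open Set Cardinal

universe u

/-- Gap functions: to a pair `b ≤ b'` of ordinals they assign a nonempty finite subset of
`(b, b']` (or of `{b}` if `b = b'`). -/
def Gap (g : Ordinal.{u} → Ordinal.{u} → Set Ordinal.{u}) : Prop :=
  ∀ b b', (g b b').Finite ∧ (g b b').Nonempty ∧ (∀ p ∈ g b b', p ≤ b') ∧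
    (b < b' → ∀ p ∈ g b b', b < p)

/-- The predecessor in `x` of the element `β` of `x`. -/
noncomputable def pred (x : Set Ordinal.{u}) (β : Ordinal.{u}) : Ordinal.{u} := sSup (x ∩ Iio β)

/-- Postprocessing of the club `x` by the gap function `g`. -/
def post (g : Ordinal.{u} → Ordinal.{u} → Set Ordinal.{u}) (x : Set Ordinal.{u}) :
    Set Ordinal.{u} :=
  {β | β ∈ x ∧ LimPt x β} ∪ {p | ∃ β ∈ x, ¬ LimPt x β ∧ p ∈ g (pred x β) β}

variable {g : Ordinal.{u} → Ordinal.{u} → Set Ordinal.{u}} {x : Set Ordinal.{u}}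
  {α β : Ordinal.{u}}

theorem pred_le : pred x β ≤ β := by
  unfold pred
  rcases (x ∩ Iio β).eq_empty_or_nonempty with h | h
  · rw [h]
    simp
  · exact csSup_le h fun _ hy => hy.2.le

theorem le_pred {y : Ordinal.{u}} (hy : y ∈ x) (hyβ : y < β) : y ≤ pred x β :=
  le_csSup ⟨β, fun _ hz => hz.2.le⟩ ⟨hy, hyβ⟩

theorem pred_lt (h : ¬ LimPt x β) (h0 : 0 < β) : pred x β < β := by
  refine lt_of_le_of_ne pred_le fun heq => h ⟨h0, fun γ hγ => ?_⟩
  rcases (x ∩ Iio β).eq_empty_or_nonempty with he | he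
  · unfold pred at heq
    rw [he, csSup_empty] at heq
    exact absurd heq h0.ne
  · rw [← heq] at hγ
    obtain ⟨y, hy, hγy⟩ := exists_lt_of_lt_csSup he hγ
    exact ⟨y, hy.1, hγy, hy.2⟩

theorem pred_eq_of_limPt (h : LimPt x β) : pred x β = β := by
  refine le_antisymm pred_le ?_
  by_contra hc
  obtain ⟨δ, h1, h2, h3⟩ := h.2 _ (not_le.1 hc)
  exact absurd (le_pred h1 h3) (not_le.2 h2)

theorem pred_inter {γ : Ordinal.{u}} (h : β ≤ γ) : pred (x ∩ Iio γ) β = pred x β := by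
  unfold pred
  congr 1
  ext z
  simp only [mem_inter_iff, mem_Iio]
  constructor
  · rintro ⟨⟨h1, h2⟩, h3⟩
    exact ⟨h1, h3⟩
  · rintro ⟨h1, h3⟩
    exact ⟨⟨h1, h3.trans_le h⟩, h3⟩

/-- Elements of the postprocessed club between the predecessor of `β` and `β`. -/
theorem mem_gap (hg : Gap g) (hβ : β ∈ x) (hl : ¬ LimPt x β) {p : Ordinal.{u}}
    (hp : p ∈ post g x) (h1 : pred x β < p) (h2 : p ≤ β) : p ∈ g (pred x β) β := by
  rcases hp with ⟨hpx, hpl⟩ | ⟨β₁, hβ₁, hl₁, hp₁⟩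
  · rcases h2.eq_or_lt with rfl | h2
    · exact absurd hpl hl
    · exact absurd (le_pred hpx h2) (not_le.2 h1)
  · rcases lt_trichotomy β₁ β with h | h | h
    · have := (hg (pred x β₁) β₁).2.2.1 p hp₁
      exact absurd (this.trans (le_pred hβ₁ h)) (not_le.2 h1)
    · rw [← h]
      exact hp₁
    · have hb : β ≤ pred x β₁ := le_pred hβ h
      have hlt : pred x β₁ < β₁ := pred_lt hl₁ ((zero_le).trans_lt h)
      have := (hg (pred x β₁) β₁).2.2.2 hlt p hp₁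
      exact absurd (hb.trans_lt this) (not_lt.2 h2)

theorem limPt_of_post (hg : Gap g) (h : LimPt (post g x) β) : LimPt x β := by
  refine ⟨h.1, fun γ hγ => ?_⟩
  obtain ⟨p, hp, h1, h2⟩ := h.2 γ hγ
  rcases hp with ⟨hpx, -⟩ | ⟨β₁, hβ₁, hl₁, hp₁⟩
  · exact ⟨p, hpx, h1, h2⟩
  · have hle := (hg (pred x β₁) β₁).2.2.1 p hp₁
    rcases lt_or_ge β₁ β with hb | hb
    · exact ⟨β₁, hβ₁, h1.trans_le hle, hb⟩
    · exfalso
      have h0 : 0 < β₁ := ((zero_le).trans_lt h1).trans_le hle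
      have hlt : pred x β₁ < β₁ := pred_lt hl₁ h0
      have hpp := (hg (pred x β₁) β₁).2.2.2 hlt p hp₁
      have hinf := h.infinite h2
      apply hinf
      refine (hg (pred x β₁) β₁).1.subset ?_
      rintro q ⟨hq, hq1, hq2⟩
      exact mem_gap hg hβ₁ hl₁ hq (hpp.trans hq1) (hq2.le.trans hb)

theorem post_club (hg : Gap g) (hx : ClubIn α x) : ClubIn α (post g x) := by
  refine ⟨?_, ?_, ?_⟩
  · rintro p (⟨hp, -⟩ | ⟨β, hβ, -, hp⟩)
    · exact hx.1 hp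
    · exact ((hg _ _).2.2.1 p hp).trans_lt (hx.1 hβ)
  · intro γ hγ
    obtain ⟨δ, hδ, hγδ⟩ := hx.2.1 γ hγ
    obtain ⟨δ', hδ', hδδ'⟩ := hx.2.1 δ (hx.1 hδ)
    have hne : {ε | ε ∈ x ∧ δ < ε}.Nonempty := ⟨δ', hδ', hδδ'⟩
    have hmem := csInf_mem hne
    set ε := sInf {ε | ε ∈ x ∧ δ < ε} with hε
    have hpred : pred x ε = δ := by
      refine le_antisymm ?_ (le_pred hδ hmem.2)
      refine csSup_le ⟨δ, hδ, hmem.2⟩ fun y hy => ?_
      by_contra hc
      exact absurd (csInf_le' (show y ∈ {ε | ε ∈ x ∧ δ < ε} from ⟨hy.1, not_le.1 hc⟩))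
        (not_le.2 hy.2)
    have hl : ¬ LimPt x ε := by
      intro h
      rw [pred_eq_of_limPt h] at hpred
      exact absurd hmem.2 (by rw [hpred]; exact lt_irrefl _)
    obtain ⟨p, hp⟩ := (hg (pred x ε) ε).2.1
    refine ⟨p, Or.inr ⟨ε, hmem.1, hl, hp⟩, ?_⟩
    have := (hg (pred x ε) ε).2.2.2 (by rw [hpred]; exact hmem.2) p hp
    rw [hpred] at this
    exact hγδ.trans this
  · intro β hβ h
    have h' := limPt_of_post hg h
    exact Or.inl ⟨hx.2.2 β hβ h', h'⟩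

theorem post_inter (hg : Gap g) (h : LimPt x β) (hβ : β ∈ x) :
    post g x ∩ Iio β = post g (x ∩ Iio β) := by
  ext p
  constructor
  · rintro ⟨⟨hp, hpl⟩ | ⟨β₁, hβ₁, hl₁, hp₁⟩, hpβ⟩
    · exact Or.inl ⟨⟨hp, hpβ⟩, (limPt_inter_Iio (le_of_lt hpβ)).2 hpl⟩
    · have hlt : β₁ < β := by
        by_contra hc
        rcases (not_lt.1 hc).eq_or_lt with heq | hlt
        · rw [← heq] at hl₁
          exact hl₁ h
        · have hb : β ≤ pred x β₁ := le_pred hβ hlt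
          have hlt' : pred x β₁ < β₁ := pred_lt hl₁ ((zero_le).trans_lt hlt)
          have := (hg (pred x β₁) β₁).2.2.2 hlt' p hp₁
          exact absurd (hb.trans_lt this) (not_lt.2 (le_of_lt hpβ))
      refine Or.inr ⟨β₁, ⟨hβ₁, hlt⟩, ?_, ?_⟩
      · rwa [limPt_inter_Iio hlt.le]
      · rwa [pred_inter hlt.le]
  · rintro (⟨⟨hp, hpβ⟩, hpl⟩ | ⟨β₁, ⟨hβ₁, hlt⟩, hl₁, hp₁⟩)
    · exact ⟨Or.inl ⟨hp, (limPt_inter_Iio (le_of_lt hpβ)).1 hpl⟩, hpβ⟩
    · have hlt' : β₁ < β := hlt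
      rw [limPt_inter_Iio hlt'.le] at hl₁
      rw [pred_inter hlt'.le] at hp₁
      exact ⟨Or.inr ⟨β₁, hβ₁, hl₁, hp₁⟩, ((hg _ _).2.2.1 p hp₁).trans_lt hlt'⟩

/-- Cofinally many gaps of `x` are filled with at least `n` elements of `B`. -/
def GoodAt (g : Ordinal.{u} → Ordinal.{u} → Set Ordinal.{u}) (x B : Set Ordinal.{u}) (n : ℕ)
    (α : Ordinal.{u}) : Prop :=
  ∀ ξ < α, ∃ β ∈ x, ¬ LimPt x β ∧ ξ ≤ pred x β ∧ pred x β < β ∧ g (pred x β) β ⊆ B ∧
    n ≤ (g (pred x β) β).ncard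

theorem nextIn_of_goodAt (hg : Gap g) (hx : ClubIn α x) {B : Set Ordinal.{u}} {n : ℕ}
    (h : GoodAt g x B n α) {ξ : Ordinal.{u}} (hξ : ξ < α) :
    ∃ γ ∈ post g x, ξ < γ ∧ NextIn (post g x) B n γ := by
  have hpc := post_club hg hx
  obtain ⟨q, hq, hξq⟩ := hpc.2.1 ξ hξ
  obtain ⟨β, hβ, hl, hqb, hb, hB, hn⟩ := h q (hpc.1 hq)
  have hβα : β < α := hx.1 hβ
  have hne : (post g x ∩ Iic (pred x β)).Nonempty := ⟨q, hq, hqb⟩
  obtain ⟨hγ, hγb⟩ := sSup_mem_of_closed hpc.2.2 (hb.trans hβα) hne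
  have hbdd : BddAbove (post g x ∩ Iic (pred x β)) := ⟨_, fun y hy => hy.2⟩
  set γ := sSup (post g x ∩ Iic (pred x β)) with hγdef
  refine ⟨γ, hγ, hξq.trans_le (le_csSup hbdd ⟨hq, hqb⟩), ?_⟩
  intro δ hδ hγδ hcard
  have hδb : pred x β < δ := by
    by_contra hc
    exact absurd (le_csSup hbdd ⟨hδ, not_lt.1 hc⟩) (not_le.2 hγδ)
  by_cases hδβ : δ ≤ β
  · exact hB (mem_gap hg hβ hl hδ hδb hδβ)
  · exfalso
    have hδβ' := not_le.1 hδβ
    have hsub : insert δ (g (pred x β) β) ⊆ post g x ∩ Ioc γ δ := by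
      rintro p (rfl | hp)
      · exact ⟨hδ, hγδ, le_rfl⟩
      · refine ⟨Or.inr ⟨β, hβ, hl, hp⟩, hγb.trans_lt ((hg _ _).2.2.2 hb p hp), ?_⟩
        exact ((hg _ _).2.2.1 p hp).trans hδβ'.le
    have hnot : δ ∉ g (pred x β) β := fun hm => hδβ ((hg _ _).2.2.1 δ hm)
    have h1 : (insert δ (g (pred x β) β)).encard = (g (pred x β) β).encard + 1 :=
      encard_insert_of_notMem hnot
    have h2 : ((g (pred x β) β).ncard : ℕ∞) = (g (pred x β) β).encard :=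
      (hg _ _).1.cast_ncard_eq
    have h3 := encard_le_encard hsub
    rw [h1, ← h2] at h3
    have h4 := h3.trans hcard
    have h5 : (g (pred x β) β).ncard + 1 ≤ n := by exact_mod_cast h4
    omega

/-- A gap function which works for a coherent sequence yields the proxy principle. -/
theorem proxy_of_gap {κ : Cardinal.{u}} (C : Ordinal.{u} → Set Ordinal.{u})
    (hC : ∀ α < κ.ord, Order.IsSuccLimit α →
      ClubIn α (C α) ∧ ∀ β < α, LimPt (C α) β → C β = C α ∩ Iio β)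
    (hg : Gap g)
    (hgood : ∀ B : Set Ordinal.{u}, B ⊆ Iio κ.ord → (∀ γ < κ.ord, ∃ δ ∈ B, γ < δ) → ∀ n : ℕ,
      ∀ E : Set Ordinal.{u}, ClubIn κ.ord E → ∃ α ∈ E, Order.IsSuccLimit α ∧ GoodAt g (C α) B n α)
    (μ : Cardinal.{u}) (hμ : 2 ≤ μ) : Proxy κ μ := by
  refine ⟨fun α => {post g (C α)}, ?_, ?_⟩
  · intro α hα hlim
    refine ⟨singleton_nonempty _, ?_, ?_⟩
    · rw [Cardinal.mk_singleton]
      have h1 : (1 : Cardinal.{u + 1}) < 2 := Cardinal.one_lt_two.{u + 1}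
      have h2 : (2 : Cardinal.{u + 1}) ≤ Cardinal.lift.{u + 1} μ := by
        have := Cardinal.lift_le.{u + 1}.2 hμ
        simpa using this
      exact h1.trans_le h2
    · rintro D rfl
      refine ⟨post_club hg (hC α hα hlim).1, fun β hβ hl => ?_⟩
      have hl' := limPt_of_post hg hl
      have hmem := (hC α hα hlim).1.2.2 β hβ hl'
      refine ⟨_, rfl, ?_⟩
      rw [post_inter hg hl' hmem, (hC α hα hlim).2 β hβ hl']
  · intro B hB hB' n E hE
    obtain ⟨α, hαE, hlim, hα⟩ := hgood B hB hB' n E hE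
    refine ⟨α, hαE, hlim, ?_⟩
    rintro D rfl ξ hξ
    exact nextIn_of_goodAt hg (hC α (hE.1 hαE) hlim).1 hα hξ

end Pool.Agent.W_MP_960bf8_lc
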