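import Pool.Agent.W_MP_960bf8_lc.Gap

/-!
Two lemmas: a square sequence does not almost contain an unbounded set at club many points of a
given cofinality; and a diamond sequence guesses small families of sets.
-/

namespace Pool.Agent.W_MP_960bf8_lc

open Set Cardinal

universe u

variable {κ : Cardinal.{u}}

/-- For a square sequence `C`, an unbounded set `G` and a club `E` there is a point `α` of `E` of
the prescribed cofinality such that `G ∩ α` is not almost contained in `C α`. -/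
theorem exists_not_almost (hκ : κ.IsRegular) (hκ0 : ℵ₀ < κ) (C : Ordinal.{u} → Set Ordinal.{u})
    (hC : ∀ α < κ.ord, Order.IsSuccLimit α →
      ClubIn α (C α) ∧ ∀ β < α, LimPt (C α) β → C β = C α ∩ Iio β)
    (hthread : ¬ ∃ D : Set Ordinal.{u}, ClubIn κ.ord D ∧
      ∀ α < κ.ord, LimPt D α → D ∩ Iio α = C α)
    {θ : Cardinal.{u}} (hθ : θ.IsRegular) (hθκ : θ < κ)
    {G : Set Ordinal.{u}} (hG : G ⊆ Iio κ.ord) (hG' : ∀ γ < κ.ord, ∃ δ ∈ G, γ < δ)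
    {E : Set Ordinal.{u}} (hE : ClubIn κ.ord E) :
    ∃ α ∈ E, α.cof = θ ∧ ∀ ξ < α, ∃ η ∈ G, ξ < η ∧ η < α ∧ η ∉ C α := by
  by_contra hcon
  push Not at hcon
  obtain ⟨E₁, hE₁, hE₁G⟩ := club_limPt hκ hκ0 G hG hG'
  have hlim : ∀ α : Ordinal.{u}, α.cof = θ → Order.IsSuccLimit α := by
    intro α hα
    rw [← Ordinal.one_lt_cof_iff, hα]
    exact Cardinal.one_lt_aleph0.trans_le hθ.aleph0_le
  -- the points under consideration
  let S : Set Ordinal.{u} := {α | α ∈ E ∩ E₁ ∧ α.cof = θ}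
  have hS : ∀ α ∈ S, ∃ ξ < α, ∀ η ∈ G, ξ < η → η < α → η ∈ C α := fun α hα =>
    hcon α hα.1.1 hα.2
  have hξ : ∀ α : Ordinal.{u}, ∃ ξ : Ordinal.{u},
      α ∈ S → ξ < α ∧ ∀ η ∈ G, ξ < η → η < α → η ∈ C α := by
    intro α
    by_cases h : α ∈ S
    · obtain ⟨ξ, h1, h2⟩ := hS α h
      exact ⟨ξ, fun _ => ⟨h1, h2⟩⟩
    · exact ⟨0, fun h' => absurd h' h⟩
  choose ξ hξ using hξ
  -- a form of Fodor's lemma
  have hfod : ∃ δ < κ.ord, ∀ γ < κ.ord, ∃ α ∈ S, ξ α ≤ δ ∧ γ < α := by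
    by_contra hno
    push Not at hno
    have hb : ∀ δ : Ordinal.{u}, ∃ γ : Ordinal.{u},
        δ < κ.ord → γ < κ.ord ∧ ∀ α ∈ S, ξ α ≤ δ → α ≤ γ := by
      intro δ
      by_cases h : δ < κ.ord
      · obtain ⟨γ, h1, h2⟩ := hno δ h
        exact ⟨γ, fun _ => ⟨h1, h2⟩⟩
      · exact ⟨0, fun h' => absurd h' h⟩
    choose b hb using hb
    have hcl := club_closure hκ hκ0 b fun δ hδ => (hb δ hδ).1
    obtain ⟨α, hα, hcof⟩ := exists_cof hκ
      (club_inter hκ hκ0 (club_inter hκ hκ0 hE hE₁) hcl) hθ hθκ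
    have hαS : α ∈ S := ⟨hα.1, hcof⟩
    have h1 := (hξ α hαS).1
    have h2 := (hb (ξ α) (h1.trans hα.2.1)).2 α hαS le_rfl
    exact absurd (hα.2.2.2 _ h1) (not_lt.2 h2)
  obtain ⟨δ, hδ, hU⟩ := hfod
  -- the thread
  let U : Set Ordinal.{u} := {α | α ∈ S ∧ ξ α ≤ δ ∧ δ < α}
  have hUun : ∀ γ < κ.ord, ∃ α ∈ U, γ < α := by
    intro γ hγ
    obtain ⟨α, hα, h1, h2⟩ := hU (max γ δ) (max_lt hγ hδ)
    exact ⟨α, ⟨hα, h1, (le_max_right _ _).trans_lt h2⟩, (le_max_left _ _).trans_lt h2⟩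
  have hUκ : ∀ α ∈ U, α < κ.ord := fun α hα => hE.1 hα.1.1.1
  have hUlim : ∀ α ∈ U, Order.IsSuccLimit α := fun α hα => hlim α hα.1.2
  have hcoh : ∀ α ∈ U, ∀ α' ∈ U, α < α' → C α = C α' ∩ Iio α := by
    intro α hα α' hα' hlt
    refine (hC α' (hUκ α' hα') (hUlim α' hα')).2 α hlt ?_
    have hGα : LimPt G α := hE₁G α hα.1.1.2
    refine ⟨hGα.1, fun γ hγ => ?_⟩
    obtain ⟨η, hη, h1, h2⟩ := hGα.2 (max γ δ) (max_lt hγ hα.2.2)
    refine ⟨η, ?_, (le_max_left _ _).trans_lt h1, h2⟩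
    exact (hξ α' hα'.1).2 η hη ((hα'.2.1.trans (le_max_right _ _)).trans_lt h1) (h2.trans hlt)
  let D : Set Ordinal.{u} := {p | ∃ α ∈ U, p ∈ C α}
  have hD : ∀ α ∈ U, D ∩ Iio α = C α := by
    intro α hα
    ext p
    constructor
    · rintro ⟨⟨α', hα', hp⟩, hpα⟩
      rcases lt_trichotomy α' α with h | h | h
      · rw [hcoh α' hα' α hα h] at hp
        exact hp.1
      · rwa [← h]
      · rw [hcoh α hα α' hα' h]
        exact ⟨hp, hpα⟩
    · intro hp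
      exact ⟨⟨α, hα, hp⟩, (hC α (hUκ α hα) (hUlim α hα)).1.1 hp⟩
  have hloc : ∀ β : Ordinal.{u}, β < κ.ord → LimPt D β → ∃ α ∈ U, β < α ∧ LimPt (C α) β := by
    intro β hβ hl
    obtain ⟨α, hα, hβα⟩ := hUun β hβ
    refine ⟨α, hα, hβα, ?_⟩
    rw [← hD α hα]
    exact (limPt_inter_Iio hβα.le).2 hl
  apply hthread
  refine ⟨D, ⟨?_, ?_, ?_⟩, ?_⟩
  · rintro p ⟨α, hα, hp⟩
    exact ((hC α (hUκ α hα) (hUlim α hα)).1.1 hp).trans (hUκ α hα)
  · intro γ hγ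
    obtain ⟨α, hα, hγα⟩ := hUun γ hγ
    obtain ⟨p, hp, hγp⟩ := (hC α (hUκ α hα) (hUlim α hα)).1.2.1 γ hγα
    exact ⟨p, ⟨α, hα, hp⟩, hγp⟩
  · intro β hβ hl
    obtain ⟨α, hα, hβα, hl'⟩ := hloc β hβ hl
    exact ⟨α, hα, (hC α (hUκ α hα) (hUlim α hα)).1.2.2 β hβα hl'⟩
  · intro β hβ hl
    obtain ⟨α, hα, hβα, hl'⟩ := hloc β hβ hl
    rw [(hC α (hUκ α hα) (hUlim α hα)).2 β hβα hl', ← hD α hα]
    ext p
    constructor
    · rintro ⟨h1, h2⟩
      exact ⟨⟨h1, lt_trans h2 hβα⟩, h2⟩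
    · rintro ⟨⟨h1, -⟩, h2⟩
      exact ⟨h1, h2⟩

/-- A diamond sequence guesses families of sets indexed by small types. -/
theorem diamond_family (hκ : κ.IsRegular) (hκ0 : ℵ₀ < κ) (hd : Diamond κ) (I : Type u)
    [Nonempty I] (hI : #I < κ) :
    ∃ Z : Ordinal.{u} → I → Set Ordinal.{u}, ∀ X : I → Set Ordinal.{u},
      (∀ i, X i ⊆ Iio κ.ord) → ∀ E, ClubIn κ.ord E → ∃ η ∈ E, ∀ i, X i ∩ Iio η = Z η i := by
  obtain ⟨A, hA⟩ := hd
  -- the coding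
  let m : Ordinal.{u} := (#I).ord
  have hm0 : m ≠ 0 := by
    intro h
    rw [Cardinal.ord_eq_zero] at h
    exact Cardinal.mk_ne_zero I h
  obtain ⟨e⟩ : Nonempty (I ≃ m.ToType) := Cardinal.eq.1 (by simp [m])
  let a : I → Ordinal.{u} := fun i => ((Ordinal.ToType.mk.symm (e i) : Iio m) : Ordinal.{u})
  have ha : ∀ i, a i < m := fun i => (Ordinal.ToType.mk.symm (e i)).2
  have hainj : Function.Injective a := fun i j h =>
    e.injective (Ordinal.ToType.mk.symm.injective (Subtype.ext h))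
  let c : I → Ordinal.{u} → Ordinal.{u} := fun i ζ => m * ζ + a i
  have hcinj : ∀ i j ζ ζ', c i ζ = c j ζ' → i = j ∧ ζ = ζ' := by
    intro i j ζ ζ' h
    have h1 : ζ = ζ' := by
      have := congrArg (· / m) h
      simp only [c] at this
      rw [Ordinal.mul_add_div _ hm0, Ordinal.mul_add_div _ hm0, Ordinal.div_eq_zero_of_lt (ha i),
        Ordinal.div_eq_zero_of_lt (ha j), add_zero, add_zero] at this
      exact this
    subst h1
    refine ⟨hainj ?_, rfl⟩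
    simpa [c] using h
  have hclt : ∀ i, ∀ ζ < κ.ord, c i ζ < κ.ord := by
    intro i ζ hζ
    rw [Cardinal.lt_ord] at hζ ⊢
    have h1 : (m * ζ + a i).card = m.card * ζ.card + (a i).card := by
      rw [Ordinal.card_add, Ordinal.card_mul]
    have h2 : (a i).card < κ := by
      rw [← Cardinal.lt_ord]
      exact (ha i).trans (Cardinal.ord_lt_ord.2 hI)
    have h3 : m.card < κ := by
      simpa [m] using hI
    change (m * ζ + a i).card < κ
    rw [h1]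
    exact Cardinal.add_lt_of_lt hκ0.le (Cardinal.mul_lt_of_lt hκ0.le h3 hζ) h2
  have hcl := club_closure hκ hκ0 (fun ζ => ⨆ i, c i ζ) (fun ζ hζ =>
    sup_lt hκ (by simpa using hI) _ fun i => hclt i ζ hζ)
  refine ⟨fun η i => {ζ | ζ < η ∧ c i ζ ∈ A η}, fun X hX E hE => ?_⟩
  obtain ⟨η, hη, hAη⟩ := hA {p | ∃ i, ∃ ζ ∈ X i, p = c i ζ} (by
    rintro p ⟨i, ζ, hζ, rfl⟩
    exact hclt i ζ (hX i hζ)) _ (club_inter hκ hκ0 hE hcl)
  refine ⟨η, hη.1, fun i => ?_⟩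
  ext ζ
  simp only [mem_inter_iff, mem_Iio, mem_ofPred_eq]
  constructor
  · rintro ⟨h1, h2⟩
    refine ⟨h2, ?_⟩
    rw [← hAη]
    refine ⟨⟨i, ζ, h1, rfl⟩, ?_⟩
    exact (Ordinal.le_iSup (fun i => c i ζ) i).trans_lt (hη.2.2.2 ζ h2)
  · rintro ⟨h1, h2⟩
    rw [← hAη] at h2
    obtain ⟨⟨j, ζ', hζ', h⟩, -⟩ := h2
    obtain ⟨hij, hζζ⟩ := hcinj _ _ _ _ h
    subst hij
    subst hζζ
    exact ⟨hζ', h1⟩

/-- A diamond sequence guesses families of pairs (set, natural number) indexed by small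
types. -/
theorem diamond_family' (hκ : κ.IsRegular) (hκ0 : ℵ₀ < κ) (hd : Diamond κ) (I : Type u)
    [Nonempty I] (hI : #I < κ) :
    ∃ (Z : Ordinal.{u} → I → Set Ordinal.{u}) (N : Ordinal.{u} → I → ℕ),
      ∀ (X : I → Set Ordinal.{u}) (n : I → ℕ), (∀ i, X i ⊆ Iio κ.ord) →
        ∀ E, ClubIn κ.ord E → ∃ η ∈ E, ∀ i, X i ∩ Iio η = Z η i ∧ n i = N η i := by
  have hI2 : #(I ⊕ I) < κ := by
    rw [Cardinal.mk_sum, Cardinal.lift_id]
    exact Cardinal.add_lt_of_lt hκ0.le hI hI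
  obtain ⟨Z, hZ⟩ := diamond_family hκ hκ0 hd (I ⊕ I) hI2
  have hω : Ordinal.omega0.{u} < κ.ord := by
    rw [← Cardinal.ord_aleph0]
    exact Cardinal.ord_lt_ord.2 hκ0
  refine ⟨fun η i => Z η (Sum.inl i), fun η i => (Z η (Sum.inr i)).ncard,
    fun X n hX E hE => ?_⟩
  have hcl := club_closure hκ hκ0 (fun _ => Ordinal.omega0) (fun _ _ => hω)
  obtain ⟨η, hη, h⟩ := hZ (Sum.elim X fun i => Iio (n i : Ordinal.{u})) (by
    rintro (i | i)
    · exact hX i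
    · intro p hp
      exact (lt_trans hp (Ordinal.natCast_lt_omega0 _)).trans hω) _ (club_inter hκ hκ0 hE hcl)
  refine ⟨η, hη.1, fun i => ⟨h (Sum.inl i), ?_⟩⟩
  have h2 := h (Sum.inr i)
  simp only [Sum.elim_inr] at h2
  have hωη : Ordinal.omega0 < η := hη.2.2.2 0 hη.2.2.1
  have h3 : Iio (n i : Ordinal.{u}) ∩ Iio η = Iio (n i : Ordinal.{u}) := by
    refine inter_eq_left.2 fun p hp => ?_
    exact (lt_trans hp (Ordinal.natCast_lt_omega0 _)).trans hωη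
  rw [h3] at h2
  change n i = (Z η (Sum.inr i)).ncard
  rw [← h2]
  symm
  have h4 : Iio (n i : Ordinal.{u}) = (fun k : ℕ => (k : Ordinal.{u})) '' Iio (n i) := by
    ext p
    constructor
    · intro hp
      obtain ⟨k, rfl⟩ := Ordinal.lt_omega0.1 (lt_trans hp (Ordinal.natCast_lt_omega0 _))
      exact ⟨k, by simpa using hp, rfl⟩
    · rintro ⟨k, hk, rfl⟩
      simpa using hk
  rw [h4, ncard_image_of_injective _ Nat.cast_injective]
  simp [Set.ncard_eq_toFinset_card']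

end Pool.Agent.W_MP_960bf8_lc
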