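import Pool.Agent.W_MP_960bf8_lc.Elim

/-!
A gap function which works for a square sequence at a successor cardinal.
-/

namespace Pool.Agent.W_MP_960bf8_lc

open Set Cardinal

universe u

/-- A regular cardinal below `lam` other than the cofinality of `lam`. -/
theorem exists_theta {lam : Cardinal.{u}} (h : ℵ₀ < lam) :
    ∃ θ : Cardinal.{u}, θ.IsRegular ∧ θ < lam ∧ θ ≠ lam.ord.cof := by
  by_cases hc : lam.ord.cof = ℵ₀
  · refine ⟨ℵ₁, Cardinal.isRegular_aleph_one, ?_, ?_⟩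
    · refine lt_of_le_of_ne ?_ ?_
      · have : Order.succ ℵ₀ ≤ lam := Order.succ_le_of_lt h
        rwa [Cardinal.succ_aleph0] at this
      · rintro rfl
        rw [Cardinal.isRegular_aleph_one.cof_ord] at hc
        exact absurd hc Cardinal.aleph0_lt_aleph_one.ne'
    · rw [hc]
      exact Cardinal.aleph0_lt_aleph_one.ne'
  · exact ⟨ℵ₀, Cardinal.isRegular_aleph0, h, fun h' => hc h'.symm⟩

/-- Enumerations of the ordinals below `lam⁺` in type `lam`. -/
theorem exists_enum (lam : Cardinal.{u}) :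
    ∃ e : Ordinal.{u} → lam.ord.ToType → Ordinal.{u},
      ∀ b < (Order.succ lam).ord, ∀ η < b, ∃ i, e b i = η := by
  have : ∀ b : Ordinal.{u}, ∃ e : lam.ord.ToType → Ordinal.{u},
      b < (Order.succ lam).ord → ∀ η < b, ∃ i, e i = η := by
    intro b
    by_cases hb : b < (Order.succ lam).ord
    · have h1 : #(b.ToType) ≤ #(lam.ord.ToType) := by
        rw [Cardinal.mk_toType, Cardinal.mk_toType, Cardinal.card_ord]
        exact Order.lt_succ_iff.1 (Cardinal.lt_ord.1 hb)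
      obtain ⟨ι⟩ := (Cardinal.le_def _ _).1 h1
      refine ⟨Function.extend ι
        (fun x => ((Ordinal.ToType.mk.symm x : Iio b) : Ordinal.{u})) (fun _ => 0), ?_⟩
      intro _ η hη
      refine ⟨ι (Ordinal.ToType.mk ⟨η, hη⟩), ?_⟩
      rw [ι.injective.extend_apply, OrderIso.symm_apply_apply]
    · exact ⟨fun _ => 0, fun h => absurd h hb⟩
  choose e he using this
  exact ⟨e, he⟩

/-- At a successor cardinal `lam⁺ > ℵ₁`, a square sequence and diamond yield a gap function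
which works for the square sequence. -/
theorem exists_gap {lam : Cardinal.{u}} (hlam : ℵ₀ < lam) (C : Ordinal.{u} → Set Ordinal.{u})
    (hC : ∀ α < (Order.succ lam).ord, Order.IsSuccLimit α →
      ClubIn α (C α) ∧ ∀ β < α, LimPt (C α) β → C β = C α ∩ Iio β)
    (hthread : ¬ ∃ D : Set Ordinal.{u}, ClubIn (Order.succ lam).ord D ∧
      ∀ α < (Order.succ lam).ord, LimPt D α → D ∩ Iio α = C α)
    (hd : Diamond (Order.succ lam)) :
    ∃ g, Gap g ∧ ∀ B : Set Ordinal.{u}, B ⊆ Iio (Order.succ lam).ord →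
      (∀ γ < (Order.succ lam).ord, ∃ δ ∈ B, γ < δ) → ∀ n : ℕ,
        ∀ E : Set Ordinal.{u}, ClubIn (Order.succ lam).ord E →
          ∃ α ∈ E, Order.IsSuccLimit α ∧ GoodAt g (C α) B n α := by
  have hκ : (Order.succ lam).IsRegular := Cardinal.isRegular_succ hlam.le
  have hlk : lam < Order.succ lam := Order.lt_succ lam
  have hκ0 : ℵ₀ < Order.succ lam := hlam.trans hlk
  obtain ⟨θ, hθ, hθlam, hθc⟩ := exists_theta hlam
  obtain ⟨e, he⟩ := exists_enum lam
  generalize hκdef : Order.succ lam = κ at *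
  by_contra hcon
  have hcon' : ∀ g : Gp.{u}, ∃ (B : Set Ordinal.{u}) (n : ℕ) (E : Set Ordinal.{u}),
      B ⊆ Iio κ.ord ∧ (∀ γ < κ.ord, ∃ δ ∈ B, γ < δ) ∧ ClubIn κ.ord E ∧
        ∀ α ∈ E, Order.IsSuccLimit α → ¬ GoodAt g.1 (C α) B n α := by
    rintro ⟨g, hg⟩
    by_contra hno
    apply hcon
    refine ⟨g, hg, fun B hB hB' n E hE => ?_⟩
    by_contra hno'
    apply hno
    refine ⟨B, n, E, hB, hB', hE, fun α hα hl hgood => hno' ⟨α, hα, hl, hgood⟩⟩
  choose Bd nd Ed hBd hBd' hEd hbad using hcon'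
  let J : Type u := lam.ord.ToType
  have hJ : #J = lam := by simp [J]
  have hJne : Nonempty J := by
    rw [← Cardinal.mk_ne_zero_iff, hJ]
    exact (Cardinal.aleph0_pos.trans hlam).ne'
  have hJJ : #(J × J) < κ := by
    rw [Cardinal.mk_prod, Cardinal.lift_id, hJ, Cardinal.mul_eq_self hlam.le]
    exact hlk
  have hnomax : NoMaxOrder J := Cardinal.noMaxOrder hlam.le
  obtain ⟨Z, N, hZN⟩ := diamond_family' hκ hκ0 hd (J × J) hJJ
  choose G hG using fun j : J =>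
    exists_elim Bd nd (fun η τ => Z η (j, τ)) (fun η τ => N η (j, τ)) (fun b' => e b' '' Iio j)
  -- the correct guesses
  let GG : Set Ordinal.{u} := {η | η < κ.ord ∧ ∀ p : J × J,
    (Bd (G p.1 p.2) ∩ Iio η = Z η p ∧ nd (G p.1 p.2) = N η p) ∧ LimPt (Bd (G p.1 p.2)) η}
  have hGG : ∀ γ < κ.ord, ∃ η ∈ GG, γ < η := by
    intro γ hγ
    choose L hL hL' using fun p : J × J =>
      club_limPt hκ hκ0 (Bd (G p.1 p.2)) (hBd _) (hBd' _)
    have hcl1 := club_iInter hκ hκ0 hJJ L hL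
    have hcl2 := club_closure hκ hκ0 (fun _ => γ) (fun _ _ => hγ)
    obtain ⟨η, hη, h⟩ := hZN (fun p => Bd (G p.1 p.2)) (fun p => nd (G p.1 p.2))
      (fun p => hBd _) _ (club_inter hκ hκ0 hcl1 hcl2)
    refine ⟨η, ⟨hη.2.1, fun p => ⟨h p, hL' p η (mem_iInter.1 hη.1 p)⟩⟩, ?_⟩
    exact hη.2.2.2 0 hη.2.2.1
  -- the point `α`
  have hclE := club_iInter hκ hκ0 hJJ (fun p => Ed (G p.1 p.2)) (fun p => hEd _)
  obtain ⟨α, hαE, hcof, hα⟩ := exists_not_almost hκ hκ0 C hC hthread hθ (hθlam.trans hlk)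
    (G := GG) (fun η hη => hη.1) hGG hclE
  have hακ : α < κ.ord := hclE.1 hαE
  have hαlim : Order.IsSuccLimit α := by
    rw [← Ordinal.one_lt_cof_iff, hcof]
    exact Cardinal.one_lt_aleph0.trans_le hθ.aleph0_le
  have hCα := (hC α hακ hαlim).1
  -- the pigeonhole argument for the index `j`
  let D : J → Set Ordinal.{u} := fun j => {b | ∃ b' ∈ C α, ¬ LimPt (C α) b' ∧ b = pred (C α) b' ∧
    ∃ η ∈ GG, η ∈ e b' '' Iio j ∧ b < η ∧ η < b'}
  have hDmono : Monotone D := by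
    rintro j j' hjj b ⟨b', hb', hl, hb, η, hη, hηe, h1, h2⟩
    exact ⟨b', hb', hl, hb, η, hη, image_mono (Iio_subset_Iio hjj) hηe, h1, h2⟩
  have hDun : ∀ ξ < α, ∃ j, ∃ b ∈ D j, ξ < b := by
    intro ξ hξ
    obtain ⟨c, hc, hξc⟩ := hCα.2.1 ξ hξ
    obtain ⟨η, hη, hcη, hηα, hηC⟩ := hα c (hCα.1 hc)
    have hne : {p | p ∈ C α ∧ η < p}.Nonempty := hCα.2.1 η hηα
    have hmem := csInf_mem hne
    set b' := sInf {p | p ∈ C α ∧ η < p} with hb'
    have hbetween : ∀ y ∈ C α, y < b' → y < η := by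
      intro y hy hyb
      by_contra hno
      rcases (not_lt.1 hno).eq_or_lt with heq | hlt
      · exact hηC (heq ▸ hy)
      · exact absurd (csInf_le' (show y ∈ {p | p ∈ C α ∧ η < p} from ⟨hy, hlt⟩)) (not_le.2 hyb)
    have hl : ¬ LimPt (C α) b' := by
      intro hl
      obtain ⟨y, hy, h1, h2⟩ := hl.2 η hmem.2
      exact absurd (hbetween y hy h2) (not_lt.2 h1.le)
    have hcb : c < b' := hcη.trans hmem.2
    have hpred : pred (C α) b' ≤ η :=
      csSup_le ⟨c, hc, hcb⟩ fun y hy => (hbetween y hy.1 hy.2).le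
    have hpredC : pred (C α) b' ∈ C α := by
      have heq : C α ∩ Iio b' = C α ∩ Iic η := by
        ext y
        constructor
        · rintro ⟨h1, h2⟩
          exact ⟨h1, (hbetween y h1 h2).le⟩
        · rintro ⟨h1, h2⟩
          exact ⟨h1, lt_of_le_of_lt h2 hmem.2⟩
      unfold pred
      rw [heq]
      exact (sSup_mem_of_closed hCα.2.2 hηα ⟨c, hc, hcη.le⟩).1
    have hpredlt : pred (C α) b' < η := by
      refine lt_of_le_of_ne hpred ?_
      rintro heq
      rw [heq] at hpredC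
      exact hηC hpredC
    have hb'κ : b' < κ.ord := (hCα.1 hmem.1).trans hακ
    obtain ⟨i, hi⟩ := he b' hb'κ η hmem.2
    obtain ⟨j, hj⟩ := exists_gt i
    refine ⟨j, pred (C α) b', ⟨b', hmem.1, hl, rfl, η, hη, ⟨i, hj, hi⟩, hpredlt, hmem.2⟩, ?_⟩
    exact hξc.trans_le (le_pred hc hcb)
  obtain ⟨j, hj⟩ := exists_unbounded (J := J) (α := α)
    (by rw [hcof, Ordinal.cof_toType]; exact hθc) D hDmono hDun
  -- bounds for the coordinates `(j, τ)`
  have hξ : ∀ τ : J, ∃ ξ < α, ∀ b' ∈ C α, ¬ LimPt (C α) b' → ξ ≤ pred (C α) b' →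
      pred (C α) b' < b' → Bad (G j τ).1 (Bd (G j τ)) (nd (G j τ)) (pred (C α) b') b' := by
    intro τ
    have h1 := hbad (G j τ) α (mem_iInter.1 hαE (j, τ)) hαlim
    unfold GoodAt at h1
    push Not at h1
    obtain ⟨ξ, hξ, h2⟩ := h1
    refine ⟨ξ, hξ, fun b' hb' hl h3 h4 h5 => ?_⟩
    exact absurd h5.2 (not_le.2 (h2 b' hb' hl h3 h4 h5.1))
  choose ξ hξα hξbad using hξ
  obtain ⟨S, f, hS, hf, hfcof⟩ := exists_family α
  choose s hs using fun τ => hfcof (ξ τ) (hξα τ)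
  rw [hcof] at hS
  -- a large fiber
  have hfib : ∃ t : S, #(Iio j) < #(s ⁻¹' {t}) := by
    by_contra hno
    push Not at hno
    have h1 : #J ≤ #S * #(Iio j) := by
      have h2 : #J = Cardinal.sum fun t : S => #(s ⁻¹' {t}) := by
        rw [← Cardinal.mk_sigma]
        exact Cardinal.mk_congr (Equiv.sigmaFiberEquiv s).symm
      rw [h2]
      refine (Cardinal.sum_le_sum _ _ hno).trans ?_
      rw [Cardinal.sum_const']
    have h3 : #(Iio j) < lam := by
      have h4 : #(Iio j) < #J := Cardinal.mk_Iio_lt (α := lam.ord.ToType) j (by simp)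
      rwa [hJ] at h4
    rw [hJ, hS] at h1
    exact absurd h1 (not_le.2 (Cardinal.mul_lt_of_lt hlam.le hθlam h3))
  obtain ⟨t, ht⟩ := hfib
  obtain ⟨b, ⟨b', hb', hl, hb, η, hη, hηe, hbη, hηb'⟩, hfb⟩ := hj (f t) (hf t)
  obtain ⟨h, hh1, hh2⟩ := hG j b b' η hηe hbη hηb' fun τ =>
    ⟨(hη.2 (j, τ)).1.1.symm, (hη.2 (j, τ)).1.2.symm, (hη.2 (j, τ)).2⟩
  have hB : ∀ τ ∈ s ⁻¹' {t}, Bad (G j τ).1 (Bd (G j τ)) (nd (G j τ)) b b' := by
    intro τ hτ
    rw [hb]
    refine hξbad τ b' hb' hl ?_ ?_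
    · rw [← hb]
      have h1 := hs τ
      rw [show s τ = t from hτ] at h1
      exact h1.trans hfb.le
    · rw [← hb]
      exact hbη.trans hηb'
  choose i hi hi' using fun τ : s ⁻¹' {t} => hh1 τ.1 (hB τ.1 τ.2)
  have hinj : Function.Injective (fun τ : s ⁻¹' {t} => (⟨i τ, hi τ⟩ : Iio j)) := by
    intro τ τ' heq
    have h1 : i τ = i τ' := congrArg Subtype.val heq
    have h2 : h τ = h τ' := by rw [← hi' τ, ← hi' τ', h1]
    exact Subtype.ext (hh2 τ τ' (hB τ.1 τ.2) (hB τ'.1 τ'.2) h2)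
  exact absurd ht (not_lt.2 (Cardinal.mk_le_of_injective hinj))

end Pool.Agent.W_MP_960bf8_lc
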